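import Pool.Agent.H80C.QBase
import Pool.Agent.H80E.AlgP

/-!
# Two commuting maps: almost everywhere convergence lifts to isometric and distal extensions

We consider the averages `(1/N) ∑_{n=1}^N f₀ (T₀^n x) f₁ (T₁^n x)` for two commuting measure preserving maps `T₀, T₁` (in the
problem: `k = 1`, two functions, linear polynomials, commuting maps). The almost everywhere convergence for all bounded functions is
open. We prove that it passes from any system to all its isometric extensions, and so to all its distal extensions.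
Nothing else is assumed on the base or on the extension: no ergodicity of any of the maps, no mixing.

* (1) Let `S₀, S₁` be commuting invertible measure preserving maps of `(Y, μ)`, and let `T_j (y, w) = (S_j y, σ_j(y) • w)`
  where `K` is a compact metrizable group acting on `W` and `σ₀, σ₁ : Y → K` are measurable with
  `σ₀(S₁ y) σ₁(y) = σ₁(S₀ y) σ₀(y)`. If the averages converge for `S₀, S₁`, they converge for `T₀, T₁`.
* (2) If the averages converge for the bounded functions measurable with respect to a σ-algebra `𝓐`, they converge for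
  the bounded functions measurable with respect to every σ-algebra in the smallest class which contains `𝓐` and
  is closed under isometric extensions and under directed suprema.
* (3) An unconditional consequence: this applies to the σ-algebra generated by any family of sets `A` such that each of
  `T₀⁻¹ A`, `T₁⁻¹ A` is equal to `A` or to `Q⁻¹ A`, where `Q` is a measure preserving map commuting with `T₀` and `T₁`. For example
  the sets with `T₀⁻¹ A = T₁⁻¹ A` (`Q = T₀`), or the sets which are invariant under `T₀` or under `T₁` (`Q = T₀ T₁`).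
* (4) Another unconditional consequence: this applies when `𝓐` is given by a factor map to two commuting affine maps of a compact abelian
  group with Haar measure (convergence on such a base is in the starting files).

Proof. Let `R = T₁ T₀⁻¹` and let `μ₂` be the relatively independent square of `μ` over the `R`-invariant sets. Call `s` structured
(for the index `j`) if `(x, x') ↦ s(x)` is in the closure in `L¹(μ₂)` of the sums of the functions `k(x, x') g(x')` with `k` invariant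
under `T_j × T_j`. Every bounded function is a sum `s + w` with `s` structured and `w` orthogonal to the structured
functions; then `E(w ⊗ w | T_j × T_j)` vanishes (averaging over `R^h x'` shows that `x ↦ ∫ k(x, x') w(x') dμ_x(x')` is structured), i.e. the box
seminorm of `w` for `R, T_j` vanishes. If one of the functions is such a `w`, the averages tend to zero almost everywhere on
an isometric extension of a system with convergence: van der Corput's inequality on the fibres, with independent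
fibre coordinates for the two factors, leads to correlations over the base, which converge by assumption, and whose integrals are small
by the mean ergodic theorem for `R`. For structured `s₀, s₁` the averages are approximated, for independent points `y, z` of
the fibre of `x`, by sums of `k(x, y) k'(x, z) (1/N) ∑ g(T₀^n y) g'(T₁^n z)`, and `(y, z) ↦ (T₀ y, T₁ z)` preserves `μ₂`, so they converge by Birkhoff's
theorem.
-/

set_option autoImplicit false

open MeasureTheory Filter Topology Finset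
open scoped ENNReal ComplexConjugate

namespace Pool.Agent.Results.MP_f720ae_an.CommutingDistalExtensions

/-- the extension `(y, w) ↦ (S y, σ(y) • w)` -/
def ext {Y K W : Type} [SMul K W] (S : Y → Y) (σ : Y → K) (z : Y × W) : Y × W :=
  (S z.1, σ z.1 • z.2)

/-- the averages `(1/N) ∑_{n=1}^N f₀ (T₀^n x) f₁ (T₁^n x)` -/
noncomputable def avg {X : Type} (T₀ T₁ : X → X) (f₀ f₁ : X → ℂ) (N : ℕ) (x : X) : ℂ :=
  (1 / (N : ℂ)) * ∑ n ∈ Finset.Icc 1 N, f₀ (T₀^[n] x) * f₁ (T₁^[n] x)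

/-- almost everywhere convergence of the averages of all bounded functions which are measurable with respect
to the σ-algebra `𝓐` -/
def Conv {X : Type} {_ : MeasurableSpace X} (ν : Measure X) (T₀ T₁ : X → X) (𝓐 : MeasurableSpace X) : Prop :=
  ∀ f₀ f₁ : X → ℂ, Measurable[𝓐] f₀ → Measurable[𝓐] f₁ → (∃ C, ∀ x, ‖f₀ x‖ ≤ C ∧ ‖f₁ x‖ ≤ C) →
    ∀ᵐ x ∂ν, ∃ L, Tendsto (fun N => avg T₀ T₁ f₀ f₁ N x) atTop (𝓝 L)

/-- `IsoExt μ T₀ T₁ 𝓐 𝓑`: the σ-algebra `𝓑` is (contained in) an isometric extension of (a part of) the σ-algebra `𝓐`. That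
is, there are a map `π` to a system `(Y, S₀, S₁)` with commuting `S₀, S₁` and a map `τ` to a space `W` with an action of a compact
metrizable group `K`, with `π (T_j x) = S_j (π x)` and `τ (T_j x) = σ_j (π x) • τ x` almost everywhere for a cocycle `(σ₀, σ₁)`, the
distribution of `(π, τ)` is the product of the one of `π` and of the image of Haar measure in an orbit in `W`; `π` is
measurable with respect to `𝓐` and `𝓑` is contained in the σ-algebra of `(π, τ)`, both up to null sets. -/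
def IsoExt {X : Type} {_ : MeasurableSpace X} (μ : Measure X) (T₀ T₁ : X → X) (𝓐 𝓑 : Set (Set X)) : Prop :=
  ∃ (Y K W : Type) (_ : MeasurableSpace Y) (_ : StandardBorelSpace Y) (_ : Group K) (_ : TopologicalSpace K)
    (_ : IsTopologicalGroup K) (_ : CompactSpace K) (_ : T2Space K) (_ : SecondCountableTopology K)
    (_ : MeasurableSpace K) (_ : BorelSpace K) (_ : MeasurableSpace W)
    (_ : MulAction K W) (_ : MeasurableSMul₂ K W) (ρ : Measure K) (_ : ρ.IsHaarMeasure)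
    (_ : IsProbabilityMeasure ρ) (w₀ : W) (S₀ S₁ : Y ≃ᵐ Y) (σ₀ σ₁ : Y → K) (π : X → Y) (τ : X → W),
    Measurable σ₀ ∧ Measurable σ₁ ∧ (∀ y, S₀ (S₁ y) = S₁ (S₀ y)) ∧
    (∀ y, σ₀ (S₁ y) * σ₁ y = σ₁ (S₀ y) * σ₀ y) ∧ Measurable π ∧ Measurable τ ∧
    (∀ᵐ x ∂μ, π (T₀ x) = S₀ (π x) ∧ π (T₁ x) = S₁ (π x)) ∧
    (∀ᵐ x ∂μ, τ (T₀ x) = σ₀ (π x) • τ x ∧ τ (T₁ x) = σ₁ (π x) • τ x) ∧
    μ.map (fun x => (π x, τ x)) = (μ.map π).prod (ρ.map fun k => k • w₀) ∧
    (∀ D : Set Y, MeasurableSet D → ∃ A ∈ 𝓐, π ⁻¹' D =ᵐ[μ] A) ∧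
    (∀ B ∈ 𝓑, ∃ C : Set (Y × W), MeasurableSet C ∧ B =ᵐ[μ] (fun x => (π x, τ x)) ⁻¹' C)

/-- `Distal μ T₀ T₁ 𝓐 𝓑`: the σ-algebra `𝓑` is obtained from `𝓐` by (transfinitely many) isometric extensions and
suprema of directed families -/
inductive Distal {X : Type} {mX : MeasurableSpace X} (μ : Measure X) (T₀ T₁ : X → X) (𝓐 : MeasurableSpace X) :
    MeasurableSpace X → Prop
  | refl : Distal μ T₀ T₁ 𝓐 𝓐
  | iso (𝓑 𝓒 : MeasurableSpace X) : Distal μ T₀ T₁ 𝓐 𝓑 → 𝓒 ≤ mX →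
      IsoExt μ T₀ T₁ {s | MeasurableSet[𝓑] s} {s | MeasurableSet[𝓒] s} → Distal μ T₀ T₁ 𝓐 𝓒
  | lim (F : Set (MeasurableSpace X)) : F.Nonempty → DirectedOn (· ≤ ·) F → (∀ 𝓑 ∈ F, Distal μ T₀ T₁ 𝓐 𝓑) →
      Distal μ T₀ T₁ 𝓐 (sSup F)

lemma conv_iff {X : Type} {mX : MeasurableSpace X} (ν : Measure X) (T₀ T₁ : X → X)
    (𝓐 : MeasurableSpace X) : Conv ν T₀ T₁ 𝓐 ↔ @Pool.Agent.H80C.CvF X mX ν 2 ![T₀, T₁] 𝓐 :=
  @Pool.Agent.H80C.conv_pair X 𝓐 mX ν T₀ T₁

lemma distal_conv {X : Type} [mX : MeasurableSpace X] (μ : Measure X) [IsProbabilityMeasure μ] (T₀ T₁ : X → X)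
    (hT₀ : MeasurePreserving T₀ μ μ) (hT₁ : MeasurePreserving T₁ μ μ) (𝓐 𝓑 : MeasurableSpace X) (hA : 𝓐 ≤ mX)
    (hc : Conv μ T₀ T₁ 𝓐) (hd : Distal μ T₀ T₁ 𝓐 𝓑) : Conv μ T₀ T₁ 𝓑 := by
  suffices h : 𝓑 ≤ mX ∧ Conv μ T₀ T₁ 𝓑 from h.2
  induction hd with
  | refl => exact ⟨hA, hc⟩
  | iso 𝓑 𝓒 _ hC hiso ih =>
    refine ⟨hC, ?_⟩
    obtain ⟨Y, K, W, _, _, _, _, _, _, _, _, _, _, _, _, _, ρ, _, _, w₀, S₀, S₁, σ₀, σ₁, π, τ, h0, h0', h1, h1', h2,
      h3, h4, h5, h6, h7, h8⟩ := hiso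
    rw [conv_iff] at ih ⊢
    exact @Pool.Agent.H80C.pair_iso X 𝓒 𝓑 mX μ _ Y K W _ _ _ _ _ _ _ _ _ _ _ _ _ ρ _ _ w₀ S₀ S₁ σ₀ σ₁ h0 h0' h1 h1'
      π h2 τ h3 T₀ T₁ hT₀ hT₁ h4 h5 h6 ih.1 h7 (fun B hB => ⟨hC B hB, h8 B hB⟩) ih.2
  | lim F hne hdir _ ih =>
    refine ⟨sSup_le fun 𝓑 hB => (ih 𝓑 hB).1, ?_⟩
    rw [conv_iff]
    exact @Pool.Agent.H80C.pair_sup X mX μ _ F hne hdir (fun 𝓑 hB => (ih 𝓑 hB).1) T₀ T₁ hT₀ hT₁
      fun 𝓑 hB => (conv_iff μ T₀ T₁ 𝓑).1 (ih 𝓑 hB).2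

theorem result :
    -- (1)
    (∀ (Y K W : Type) [mY : MeasurableSpace Y] [StandardBorelSpace Y] [Group K] [TopologicalSpace K]
      [IsTopologicalGroup K] [CompactSpace K] [T2Space K] [SecondCountableTopology K] [MeasurableSpace K]
      [BorelSpace K] [MeasurableSpace W] [MulAction K W] [MeasurableSMul₂ K W]
      (μ : Measure Y) [IsProbabilityMeasure μ] (ρ : Measure K) [ρ.IsHaarMeasure] [IsProbabilityMeasure ρ]
      (w₀ : W) (S₀ S₁ : Y ≃ᵐ Y) (_ : MeasurePreserving S₀ μ μ) (_ : MeasurePreserving S₁ μ μ)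
      (σ₀ σ₁ : Y → K) (_ : Measurable σ₀) (_ : Measurable σ₁) (_ : ∀ y, S₀ (S₁ y) = S₁ (S₀ y))
      (_ : ∀ y, σ₀ (S₁ y) * σ₁ y = σ₁ (S₀ y) * σ₀ y),
      Conv μ S₀ S₁ mY → Conv (μ.prod (ρ.map fun k => k • w₀)) (ext S₀ σ₀) (ext S₁ σ₁)
        (inferInstanceAs (MeasurableSpace (Y × W)))) ∧
    -- (2)
    (∀ (X : Type) [mX : MeasurableSpace X] (μ : Measure X) [IsProbabilityMeasure μ] (T₀ T₁ : X → X)
      (_ : MeasurePreserving T₀ μ μ) (_ : MeasurePreserving T₁ μ μ) (𝓐 𝓑 : MeasurableSpace X), 𝓐 ≤ mX →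
      Conv μ T₀ T₁ 𝓐 → Distal μ T₀ T₁ 𝓐 𝓑 → Conv μ T₀ T₁ 𝓑) ∧
    -- (3)
    (∀ (X : Type) [MeasurableSpace X] (μ : Measure X) [IsProbabilityMeasure μ] (T₀ T₁ Q : X → X)
      (_ : MeasurePreserving T₀ μ μ) (_ : MeasurePreserving T₁ μ μ) (_ : MeasurePreserving Q μ μ)
      (_ : ∀ x, Q (T₀ x) = T₀ (Q x)) (_ : ∀ x, Q (T₁ x) = T₁ (Q x)) (𝒢 : Set (Set X))
      (_ : ∀ A ∈ 𝒢, MeasurableSet A ∧ (T₀ ⁻¹' A =ᵐ[μ] A ∨ T₀ ⁻¹' A =ᵐ[μ] Q ⁻¹' A) ∧
        (T₁ ⁻¹' A =ᵐ[μ] A ∨ T₁ ⁻¹' A =ᵐ[μ] Q ⁻¹' A)) (𝓑 : MeasurableSpace X),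
      Distal μ T₀ T₁ (MeasurableSpace.generateFrom 𝒢) 𝓑 → Conv μ T₀ T₁ 𝓑) ∧
    -- (4)
    (∀ (X G : Type) [MeasurableSpace X] (μ : Measure X) [IsProbabilityMeasure μ] (T₀ T₁ : X → X)
      (_ : MeasurePreserving T₀ μ μ) (_ : MeasurePreserving T₁ μ μ) [CommGroup G] [TopologicalSpace G]
      [IsTopologicalGroup G] [CompactSpace G] [T2Space G] [mG : MeasurableSpace G] [BorelSpace G]
      (R₀ R₁ : Equiv.Perm G) (_ : ∃ (α : G →ₜ* G) (c : G), ∀ x, R₀ x = α x * c)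
      (_ : ∃ (α : G →ₜ* G) (c : G), ∀ x, R₁ x = α x * c) (_ : ∀ x, R₀ (R₁ x) = R₁ (R₀ x))
      (p : X → G) (_ : Measurable p) (_ : (μ.map p).IsHaarMeasure)
      (_ : ∀ᵐ x ∂μ, p (T₀ x) = R₀ (p x) ∧ p (T₁ x) = R₁ (p x)) (𝓑 : MeasurableSpace X),
      Distal μ T₀ T₁ (mG.comap p) 𝓑 → Conv μ T₀ T₁ 𝓑) := by
  refine ⟨?_, ?_, ?_, ?_⟩
  · intro Y K W _ _ _ _ _ _ _ _ _ _ _ _ _ μ _ ρ _ _ w₀ S₀ S₁ hS₀ hS₁ σ₀ σ₁ hσ₀ hσ₁ h01 hcoc hc
    rw [conv_iff] at hc ⊢
    exact Pool.Agent.H80C.pair_W μ ρ w₀ S₀ S₁ hS₀ hS₁ hσ₀ hσ₁ h01 hcoc hc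
  · intro X mX μ _ T₀ T₁ hT₀ hT₁ 𝓐 𝓑 hA hc hd
    exact @distal_conv X mX μ _ T₀ T₁ hT₀ hT₁ 𝓐 𝓑 hA hc hd
  · intro X mX μ _ T₀ T₁ Q hT₀ hT₁ hQ hc₀ hc₁ 𝒢 h𝒢
    have hle : MeasurableSpace.generateFrom 𝒢 ≤ mX := MeasurableSpace.generateFrom_le fun A hA => (h𝒢 A hA).1
    have hbase : Conv μ T₀ T₁ (MeasurableSpace.generateFrom 𝒢) := by
      rw [conv_iff]
      refine Pool.Agent.H80C.qbase (T := ![T₀, T₁]) (fun j => ?_) hQ (fun j => ?_) 𝒢 (fun A hA => (h𝒢 A hA).1)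
        fun A hA j => ?_
      · fin_cases j
        · exact hT₀
        · exact hT₁
      · fin_cases j
        · exact hc₀
        · exact hc₁
      · fin_cases j
        · exact (h𝒢 A hA).2.1
        · exact (h𝒢 A hA).2.2
    exact fun 𝓑 hd => @distal_conv X mX μ _ T₀ T₁ hT₀ hT₁ _ 𝓑 hle hbase hd
  · intro X G mX μ _ T₀ T₁ hT₀ hT₁ _ _ _ _ _ mG _ R₀ R₁ hR₀ hR₁ hcR p hp hpH hpT
    have hbase : Conv μ T₀ T₁ (mG.comap p) := by
      rw [conv_iff]
      exact Pool.Agent.H80E.alg_pair hT₀ hT₁ hR₀ hR₁ hcR hp hpH hpT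
    exact fun 𝓑 hd => @distal_conv X mX μ _ T₀ T₁ hT₀ hT₁ _ 𝓑 hp.comap_le hbase hd

end Pool.Agent.Results.MP_f720ae_an.CommutingDistalExtensions
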